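import Mathlib
import Pool.Agent.X258.ArchEmbed

set_option autoImplicit false

/-!
# A quotient hyperfield of a skew field which is not a quotient of a field

Let `F` be the skew field of the rational Hamilton quaternions and `Γ` the group of its elements of
norm one. Then `F^×/Γ` is abelian. We show that the hyperfield `F/Γ` is not isomorphic to `K/Δ` for
any field `K` and any subgroup `Δ` of `K^×`.

Proof: an isomorphism gives a multiplicative map `N : K → ℚ` (the reduced norm) whose square root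
is an archimedean absolute value of `K`. By Ostrowski's theorem `K` embeds in `ℂ`, with
`N z = |z|^2`. As `1 ⊞ 1` contains the classes of norm `1` and `2`, `K` contains a primitive third
root of unity `w` and a square root `i` of `-1`; but then `N (1 + w * i)` is irrational.
-/

universe u v

namespace Pool.Agent.Results.MP_4a7e1d_al.RationalQuaternions

/-- A (commutative) hyperfield structure on the type `H`: `H ∖ {0}` is an abelian group under the
multiplication, `0 * x = 0`, and the hyperaddition `hadd` has nonempty values and is commutative,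
associative, has the neutral element `0`, unique negatives, is reversible, and distributive. -/
structure Hyperfield (H : Type u) where
  zero : H
  one : H
  mul : H → H → H
  inv : H → H
  hadd : H → H → Set H
  zero_ne_one : zero ≠ one
  mul_comm : ∀ x y, mul x y = mul y x
  mul_assoc : ∀ x y z, mul (mul x y) z = mul x (mul y z)
  one_mul : ∀ x, mul one x = x
  mul_inv : ∀ x, x ≠ zero → mul x (inv x) = one
  zero_mul : ∀ x, mul zero x = zero
  hadd_nonempty : ∀ x y, (hadd x y).Nonempty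
  hadd_comm : ∀ x y, hadd x y = hadd y x
  hadd_assoc : ∀ x y z, (⋃ d ∈ hadd x y, hadd d z) = ⋃ d ∈ hadd y z, hadd x d
  zero_hadd : ∀ x, hadd zero x = {x}
  exists_unique_neg : ∀ x, ∃! y, zero ∈ hadd x y
  reversible : ∀ x y z y', zero ∈ hadd y y' → (z ∈ hadd x y ↔ x ∈ hadd z y')
  distrib : ∀ a x y, (fun t => mul a t) '' hadd x y = hadd (mul a x) (mul a y)

/-- An isomorphism of hyperfields: a bijection with `f 0 = 0`, `f (x y) = f x f y` and
`f (x ⊞ y) = f x ⊞ f y`. -/
structure HyperIso {H : Type u} {H' : Type v} (A : Hyperfield H) (B : Hyperfield H')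
    extends H ≃ H' where
  map_zero : toFun A.zero = B.zero
  map_mul : ∀ x y, toFun (A.mul x y) = B.mul (toFun x) (toFun y)
  map_hadd : ∀ x y, toFun '' A.hadd x y = B.hadd (toFun x) (toFun y)

section Quotient

variable {F : Type u} [DivisionRing F] (Γ : Subgroup Fˣ)

open Classical in
/-- The class `[x]` of `x ∈ F` in `{0} ∪ F^×/Γ`, with `[0] = 0`. -/
noncomputable def cls (x : F) : WithZero (Fˣ ⧸ Γ) :=
  if h : x = 0 then 0 else ((QuotientGroup.mk (Units.mk0 x h) : Fˣ ⧸ Γ) : WithZero (Fˣ ⧸ Γ))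

/-- The hyperaddition of `F/Γ`: `a ⊞ b = {[x + y] : [x] = a, [y] = b}`. -/
def qadd (a b : WithZero (Fˣ ⧸ Γ)) : Set (WithZero (Fˣ ⧸ Γ)) :=
  {c | ∃ x y : F, cls Γ x = a ∧ cls Γ y = b ∧ cls Γ (x + y) = c}

theorem cls_zero : cls Γ (0 : F) = 0 := by simp [cls]

theorem cls_unit (x : Fˣ) : cls Γ (x : F) = ((QuotientGroup.mk x : Fˣ ⧸ Γ) : WithZero (Fˣ ⧸ Γ)) := by
  have h : (x : F) ≠ 0 := x.ne_zero
  simp [cls, h]

theorem cls_eq_zero {x : F} : cls Γ x = 0 ↔ x = 0 := by
  constructor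
  · intro h
    by_contra hx
    have := cls_unit Γ (Units.mk0 x hx)
    rw [Units.val_mk0, h] at this
    exact WithZero.zero_ne_coe this
  · rintro rfl
    exact cls_zero Γ

theorem cls_surj (a : WithZero (Fˣ ⧸ Γ)) : ∃ x : F, cls Γ x = a := by
  induction a using WithZero.recZeroCoe with
  | zero => exact ⟨0, cls_zero Γ⟩
  | coe a =>
    obtain ⟨x, rfl⟩ := QuotientGroup.mk_surjective a
    exact ⟨x, cls_unit Γ x⟩

theorem cls_one [Γ.Normal] : cls Γ (1 : F) = 1 := by
  have := cls_unit Γ (1 : Fˣ)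
  rw [Units.val_one] at this
  rw [this]
  rfl

theorem cls_mul [Γ.Normal] (x y : F) : cls Γ (x * y) = cls Γ x * cls Γ y := by
  by_cases hx : x = 0
  · subst hx; simp [cls_zero]
  by_cases hy : y = 0
  · subst hy; simp [cls_zero]
  lift x to Fˣ using isUnit_iff_ne_zero.2 hx
  lift y to Fˣ using isUnit_iff_ne_zero.2 hy
  rw [← Units.val_mul, cls_unit, cls_unit, cls_unit]
  rfl

/-- Two elements with the same class differ by a right factor of class `1`. -/
theorem cls_eq [Γ.Normal] {x y : F} (h : cls Γ x = cls Γ y) :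
    ∃ g : F, cls Γ g = 1 ∧ g ≠ 0 ∧ x = y * g := by
  by_cases hy : y = 0
  · subst hy
    rw [cls_zero, cls_eq_zero] at h
    exact ⟨1, cls_one Γ, one_ne_zero, by simp [h]⟩
  · have hx : x ≠ 0 := by
      rintro rfl
      rw [cls_zero, eq_comm, cls_eq_zero] at h
      exact hy h
    refine ⟨y⁻¹ * x, ?_, mul_ne_zero (inv_ne_zero hy) hx, by rw [mul_inv_cancel_left₀ hy]⟩
    rw [cls_mul, h, ← cls_mul, inv_mul_cancel₀ hy, cls_one]

theorem cls_mul_of_one [Γ.Normal] {x g : F} (h : cls Γ g = 1) : cls Γ (x * g) = cls Γ x := by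
  rw [cls_mul, h, mul_one]

theorem mem_left [Γ.Normal] (a b c e : WithZero (Fˣ ⧸ Γ)) :
    (e ∈ ⋃ d ∈ qadd Γ a b, qadd Γ d c) ↔
      ∃ x y z : F, cls Γ x = a ∧ cls Γ y = b ∧ cls Γ z = c ∧ cls Γ (x + y + z) = e := by
  simp only [Set.mem_iUnion, exists_prop]
  constructor
  · rintro ⟨d, ⟨x, y, hx, hy, hd⟩, w, z, hw, hz, he⟩
    obtain ⟨g, hg, -, hwg⟩ := cls_eq Γ (hw.trans hd.symm)
    refine ⟨x * g, y * g, z, ?_, ?_, hz, ?_⟩
    · rw [cls_mul_of_one Γ hg, hx]
    · rw [cls_mul_of_one Γ hg, hy]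
    · rw [← add_mul, ← hwg, he]
  · rintro ⟨x, y, z, hx, hy, hz, he⟩
    exact ⟨cls Γ (x + y), ⟨x, y, hx, hy, rfl⟩, x + y, z, rfl, hz, he⟩

theorem mem_right [Γ.Normal] (a b c e : WithZero (Fˣ ⧸ Γ)) :
    (e ∈ ⋃ d ∈ qadd Γ b c, qadd Γ a d) ↔
      ∃ x y z : F, cls Γ x = a ∧ cls Γ y = b ∧ cls Γ z = c ∧ cls Γ (x + y + z) = e := by
  simp only [Set.mem_iUnion, exists_prop]
  constructor
  · rintro ⟨d, ⟨y, z, hy, hz, hd⟩, x, w, hx, hw, he⟩
    obtain ⟨g, hg, -, hwg⟩ := cls_eq Γ (hw.trans hd.symm)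
    refine ⟨x, y * g, z * g, hx, ?_, ?_, ?_⟩
    · rw [cls_mul_of_one Γ hg, hy]
    · rw [cls_mul_of_one Γ hg, hz]
    · rw [add_assoc, ← add_mul, ← hwg, he]
  · rintro ⟨x, y, z, hx, hy, hz, he⟩
    exact ⟨cls Γ (y + z), ⟨y, z, hy, hz, rfl⟩, x, y + z, hx, rfl, by rw [← add_assoc, he]⟩

theorem zero_mem_iff [Γ.Normal] (u : F) (b : WithZero (Fˣ ⧸ Γ)) :
    (0 ∈ qadd Γ (cls Γ u) b) ↔ b = cls Γ (-u) := by
  constructor
  · rintro ⟨x, y, hx, hy, h⟩
    rw [cls_eq_zero] at h
    obtain ⟨g, hg, -, hxg⟩ := cls_eq Γ hx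
    have : y = (-u) * g := by
      rw [neg_mul, ← hxg]
      exact (neg_eq_of_add_eq_zero_right h).symm
    rw [← hy, this, cls_mul_of_one Γ hg]
  · rintro rfl
    exact ⟨u, -u, rfl, rfl, by rw [add_neg_cancel, cls_zero]⟩

/-- The quotient hyperfield `F/Γ` of a skew field `F` by a normal subgroup `Γ` of `F^×` such that
`F^×/Γ` is abelian: the underlying set is `{0} ∪ F^×/Γ`, the multiplication is induced from `F` and
the hyperaddition is `qadd`. -/
noncomputable def quot (F : Type u) [DivisionRing F] (Γ : Subgroup Fˣ) (hn : Γ.Normal)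
    (hc : ∀ a b : Fˣ ⧸ Γ, a * b = b * a) : Hyperfield (WithZero (Fˣ ⧸ Γ)) where
  zero := 0
  one := 1
  mul := fun a b => a * b
  inv := fun a => a⁻¹
  hadd := qadd Γ
  zero_ne_one := zero_ne_one
  mul_comm := by
    intro a b
    induction a using WithZero.recZeroCoe with
    | zero => simp
    | coe a =>
      induction b using WithZero.recZeroCoe with
      | zero => simp
      | coe b => rw [← WithZero.coe_mul, ← WithZero.coe_mul, hc]
  mul_assoc := mul_assoc
  one_mul := one_mul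
  mul_inv := fun x hx => mul_inv_cancel₀ hx
  zero_mul := zero_mul
  hadd_nonempty := by
    intro a b
    obtain ⟨x, rfl⟩ := cls_surj Γ a
    obtain ⟨y, rfl⟩ := cls_surj Γ b
    exact ⟨cls Γ (x + y), x, y, rfl, rfl, rfl⟩
  hadd_comm := by
    have : ∀ a b : WithZero (Fˣ ⧸ Γ), qadd Γ a b ⊆ qadd Γ b a := by
      rintro a b c ⟨x, y, hx, hy, h⟩
      exact ⟨y, x, hy, hx, by rw [add_comm, h]⟩
    exact fun a b => Set.Subset.antisymm (this a b) (this b a)
  hadd_assoc := by
    intro a b c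
    ext e
    rw [mem_left Γ, mem_right Γ]
  zero_hadd := by
    intro a
    ext c
    constructor
    · rintro ⟨x, y, hx, hy, h⟩
      rw [cls_eq_zero] at hx
      subst hx
      rw [zero_add] at h
      rw [Set.mem_singleton_iff, ← h, hy]
    · intro h
      rw [Set.mem_singleton_iff] at h
      subst h
      obtain ⟨x, rfl⟩ := cls_surj Γ c
      exact ⟨0, x, cls_zero Γ, rfl, by rw [zero_add]⟩
  exists_unique_neg := by
    intro a
    obtain ⟨u, rfl⟩ := cls_surj Γ a
    exact ⟨cls Γ (-u), (zero_mem_iff Γ u _).2 rfl, fun y hy => (zero_mem_iff Γ u _).1 hy⟩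
  reversible := by
    intro a b c b' h
    obtain ⟨v, rfl⟩ := cls_surj Γ b
    rw [zero_mem_iff] at h
    subst h
    have hneg : ∀ y : F, cls Γ y = cls Γ v → cls Γ (-y) = cls Γ (-v) := by
      intro y hy
      obtain ⟨g, hg, -, h⟩ := cls_eq Γ hy
      rw [h, ← neg_mul, cls_mul_of_one Γ hg]
    constructor
    · rintro ⟨x, y, hx, hy, h⟩
      exact ⟨x + y, -y, h, hneg y hy, by rw [add_neg_cancel_right, hx]⟩
    · rintro ⟨z, y, hz, hy, h⟩
      refine ⟨z + y, -y, h, ?_, by rw [add_neg_cancel_right, hz]⟩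
      obtain ⟨g, hg, -, h'⟩ := cls_eq Γ hy
      rw [h', neg_mul, neg_neg, cls_mul_of_one Γ hg]
  distrib := by
    intro a b c
    obtain ⟨r, rfl⟩ := cls_surj Γ a
    ext e
    constructor
    · rintro ⟨d, ⟨x, y, hx, hy, h⟩, rfl⟩
      refine ⟨r * x, r * y, ?_, ?_, ?_⟩
      · rw [cls_mul, hx]
      · rw [cls_mul, hy]
      · rw [← mul_add, cls_mul, h]
    · rintro ⟨x, y, hx, hy, h⟩
      by_cases hr : r = 0
      · subst hr
        rw [cls_zero, zero_mul, cls_eq_zero] at hx hy
        subst hx hy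
        obtain ⟨x, rfl⟩ := cls_surj Γ b
        obtain ⟨y, rfl⟩ := cls_surj Γ c
        refine ⟨cls Γ (x + y), ⟨x, y, rfl, rfl, rfl⟩, ?_⟩
        rw [← h]
        simp [cls_zero]
      · have hr' : cls Γ r ≠ 0 := fun h' => hr ((cls_eq_zero Γ).1 h')
        refine ⟨cls Γ (r⁻¹ * (x + y)), ⟨r⁻¹ * x, r⁻¹ * y, ?_, ?_, by rw [mul_add]⟩, ?_⟩
        · have : cls Γ r * cls Γ (r⁻¹ * x) = cls Γ r * b := by
            rw [← cls_mul, mul_inv_cancel_left₀ hr, hx]
          exact mul_left_cancel₀ hr' this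
        · have : cls Γ r * cls Γ (r⁻¹ * y) = cls Γ r * c := by
            rw [← cls_mul, mul_inv_cancel_left₀ hr, hy]
          exact mul_left_cancel₀ hr' this
        · show cls Γ r * cls Γ (r⁻¹ * (x + y)) = e
          rw [← cls_mul, mul_inv_cancel_left₀ hr, h]

end Quotient

/-- The quotient hyperfield `K/Δ` of a (commutative) field `K` by a subgroup `Δ` of `K^×`. -/
noncomputable def fieldQuot (K : Type u) [Field K] (Δ : Subgroup Kˣ) :
    Hyperfield (WithZero (Kˣ ⧸ Δ)) :=
  quot K Δ inferInstance (fun a b => mul_comm a b)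

/-- The skew field of the rational Hamilton quaternions. -/
abbrev HQ : Type := Quaternion ℚ

/-- The group of the rational quaternions `a + b i + c j + d k` of norm
`a^2 + b^2 + c^2 + d^2 = 1`. -/
noncomputable def normOne : Subgroup HQˣ :=
  (Units.map (Quaternion.normSq : HQ →*₀ ℚ).toMonoidHom).ker

theorem mem_normOne (x : HQˣ) : x ∈ normOne ↔ Quaternion.normSq (x : HQ) = 1 := by
  rw [normOne, MonoidHom.mem_ker, Units.ext_iff]
  rfl

instance : normOne.Normal := by
  unfold normOne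
  infer_instance

theorem comm_quot : ∀ a b : HQˣ ⧸ normOne, a * b = b * a := by
  intro a b
  obtain ⟨x, rfl⟩ := QuotientGroup.mk_surjective a
  obtain ⟨y, rfl⟩ := QuotientGroup.mk_surjective b
  rw [← QuotientGroup.mk_mul, ← QuotientGroup.mk_mul, QuotientGroup.eq, mem_normOne]
  have hx : Quaternion.normSq (x : HQ) ≠ 0 := by simp
  have hy : Quaternion.normSq (y : HQ) ≠ 0 := by simp
  simp only [Units.val_mul, Units.val_inv_eq_inv_val, map_mul, map_inv₀]
  field_simp

/-- Classes modulo the norm-one group are detected by the norm. -/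
theorem normSq_eq {x y : HQ} (h : cls normOne x = cls normOne y) :
    Quaternion.normSq x = Quaternion.normSq y := by
  obtain ⟨g, hg, hg0, rfl⟩ := cls_eq normOne h
  lift g to HQˣ using isUnit_iff_ne_zero.2 hg0
  rw [cls_unit] at hg
  have h1 : (QuotientGroup.mk g : HQˣ ⧸ normOne) = 1 := by
    rw [← WithZero.coe_one] at hg
    exact WithZero.coe_injective hg
  rw [QuotientGroup.eq_one_iff, mem_normOne] at h1
  rw [map_mul, h1, mul_one]

theorem cls_eq_one {x : HQ} (h : Quaternion.normSq x = 1) : cls normOne x = 1 := by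
  have hx : x ≠ 0 := by
    rintro rfl
    simp at h
  lift x to HQˣ using isUnit_iff_ne_zero.2 hx
  rw [cls_unit, (QuotientGroup.eq_one_iff x).2 ((mem_normOne x).2 h)]
  rfl

/-- The rational quaternion `a + b i + c j + d k`. -/
def qq (a b c d : ℚ) : HQ := ⟨a, b, c, d⟩

theorem qq_add (a b c d a' b' c' d' : ℚ) :
    qq a b c d + qq a' b' c' d' = qq (a + a') (b + b') (c + c') (d + d') := rfl

theorem one_eq_qq : (1 : HQ) = qq 1 0 0 0 := rfl

theorem normSq_qq (a b c d : ℚ) :
    Quaternion.normSq (qq a b c d) = a ^ 2 + b ^ 2 + c ^ 2 + d ^ 2 := by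
  rw [Quaternion.normSq_def']
  rfl

/-- The Cauchy-Schwarz inequality for rational quaternions. -/
theorem normSq_add (x y : HQ) :
    (Quaternion.normSq (x + y) - Quaternion.normSq x - Quaternion.normSq y) ^ 2 ≤
      4 * Quaternion.normSq x * Quaternion.normSq y := by
  obtain ⟨a, b, c, d⟩ := x
  obtain ⟨a', b', c', d'⟩ := y
  change (Quaternion.normSq (qq a b c d + qq a' b' c' d') - Quaternion.normSq (qq a b c d) -
    Quaternion.normSq (qq a' b' c' d')) ^ 2 ≤ 4 * Quaternion.normSq (qq a b c d) *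
    Quaternion.normSq (qq a' b' c' d')
  rw [qq_add, normSq_qq, normSq_qq, normSq_qq]
  nlinarith [sq_nonneg (a * b' - b * a'), sq_nonneg (a * c' - c * a'), sq_nonneg (a * d' - d * a'),
    sq_nonneg (b * c' - c * b'), sq_nonneg (b * d' - d * b'), sq_nonneg (c * d' - d * c')]

/-- An abstract form of the argument: a field `K` with a multiplicative map `N : K → ℚ` whose
square root is an archimedean absolute value can not contain elements `w₁`, `w₂` of norm one such
that `1 + w₁` has norm `1` and `1 + w₂` has norm `2`. -/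
theorem contradiction_of_norm {K : Type u} [Field K] (N : K → ℚ)
    (hmul : ∀ x y, N (x * y) = N x * N y) (h0 : ∀ x, N x = 0 ↔ x = 0)
    (hnn : ∀ x, 0 ≤ N x)
    (hadd : ∀ x y, (N (x + y) - N x - N y) ^ 2 ≤ 4 * N x * N y)
    (t w₁ w₂ : K) (ht : N t = 1) (ht1 : N (1 + t) = 4) (hw₁ : N w₁ = 1) (hw₁' : N (1 + w₁) = 1)
    (hw₂ : N w₂ = 1) (hw₂' : N (1 + w₂) = 2) : False := by
  have hone : N 1 = 1 := by
    have h := hmul 1 1
    rw [mul_one] at h
    have h1 : N 1 ≠ 0 := fun h' => one_ne_zero ((h0 1).1 h')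
    field_simp at h
    exact h.symm
  let v : AbsoluteValue K ℝ :=
    { toFun := fun x => Real.sqrt (N x)
      map_mul' := by
        intro x y
        rw [hmul]
        push_cast
        rw [Real.sqrt_mul (by exact_mod_cast hnn x)]
      nonneg' := fun x => Real.sqrt_nonneg _
      eq_zero' := by
        intro x
        rw [Real.sqrt_eq_zero (by exact_mod_cast hnn x)]
        rw [← h0 x]
        exact_mod_cast Iff.rfl
      add_le' := by
        intro x y
        have h1 : ((N (x + y) : ℝ) - N x - N y) ^ 2 ≤ 4 * N x * N y := by exact_mod_cast hadd x y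
        have hx : (0 : ℝ) ≤ N x := by exact_mod_cast hnn x
        have hy : (0 : ℝ) ≤ N y := by exact_mod_cast hnn y
        have hxs := Real.sq_sqrt hx
        have hys := Real.sq_sqrt hy
        have hxn := Real.sqrt_nonneg (N x : ℝ)
        have hyn := Real.sqrt_nonneg (N y : ℝ)
        apply Real.sqrt_le_iff.2
        refine ⟨by positivity, ?_⟩
        have h2 : ((N (x + y) : ℝ) - N x - N y) ^ 2 ≤ (2 * (Real.sqrt (N x) * Real.sqrt (N y))) ^ 2 := by
          have h3 : (2 * (Real.sqrt (N x) * Real.sqrt (N y))) ^ 2 =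
              4 * (Real.sqrt (N x : ℝ)) ^ 2 * (Real.sqrt (N y : ℝ)) ^ 2 := by ring
          rw [h3, hxs, hys]
          exact h1
        have h4 := abs_le_of_sq_le_sq' h2 (by positivity)
        nlinarith [h4.2] }
  have hv : ∀ x, v x = Real.sqrt (N x) := fun x => rfl
  have hs4 : Real.sqrt ((4 : ℚ) : ℝ) = 2 := by
    rw [show ((4 : ℚ) : ℝ) = 2 ^ 2 by norm_num]
    exact Real.sqrt_sq (by norm_num)
  have h2 : v 2 = 2 := by
    have ha : v (1 + t) = 2 := by rw [hv, ht1, hs4]
    have hb : v t = 1 := by rw [hv, ht]; simp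
    have hone' : v 1 = 1 := map_one v
    have hc : v ((1 + t) ^ 2) = 4 := by rw [map_pow, ha]; norm_num
    have hd : v ((1 + t) ^ 2) ≤ v (1 + t ^ 2) + v (2 * t) := by
      rw [show (1 + t) ^ 2 = (1 + t ^ 2) + 2 * t by ring]
      exact v.add_le _ _
    have he : v (1 + t ^ 2) ≤ v 1 + v (t ^ 2) := v.add_le _ _
    rw [map_pow, hb, hone'] at he
    rw [map_mul, hb, hc] at hd
    have hf : v 2 ≤ v 1 + v 1 := by
      rw [show (2 : K) = 1 + 1 by norm_num]
      exact v.add_le _ _
    rw [hone'] at hf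
    linarith
  obtain ⟨ψ, hψ⟩ := Pool.Agent.X258.ArchEmbed.arch_embed v h2
  have hψN : ∀ x, Complex.normSq (ψ x) = N x := by
    intro x
    rw [Complex.normSq_eq_norm_sq, hψ, hv, Real.sq_sqrt (by exact_mod_cast hnn x)]
  have e1 := hψN w₁
  have e2 := hψN (1 + w₁)
  have e3 := hψN w₂
  have e4 := hψN (1 + w₂)
  have e5 := hψN (1 + w₁ * w₂)
  rw [hw₁] at e1
  rw [hw₁'] at e2
  rw [hw₂] at e3
  rw [hw₂'] at e4
  rw [map_add, map_one, Complex.normSq_apply] at e2 e4 e5
  rw [map_mul] at e5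
  rw [Complex.normSq_apply] at e1 e3
  simp only [Complex.add_re, Complex.add_im, Complex.one_re, Complex.one_im, Complex.mul_re,
    Complex.mul_im] at e2 e4 e5
  push_cast at e1 e2 e3 e4
  set a := (ψ w₁).re
  set b := (ψ w₁).im
  set c := (ψ w₂).re
  set d := (ψ w₂).im
  have ha : a = -1 / 2 := by nlinarith
  have hb : b * b = 3 / 4 := by rw [ha] at e1; linarith
  have hc : c = 0 := by nlinarith
  rw [hc] at e3 e5
  have hd : d * d = 1 := by linarith
  rw [ha] at e5
  have hq : ((2 - N (1 + w₁ * w₂) : ℚ) : ℝ) = 2 * (b * d) := by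
    push_cast
    nlinarith
  have hq2 : ((2 - N (1 + w₁ * w₂) : ℚ) : ℝ) ^ 2 = 3 := by
    rw [hq]
    have : (2 * (b * d)) ^ 2 = 4 * (b * b) * (d * d) := by ring
    rw [this, hb, hd]
    norm_num
  have h3 : (2 - N (1 + w₁ * w₂) : ℚ) ^ 2 = 3 := by exact_mod_cast hq2
  have hirr := (by norm_num : Nat.Prime 3).irrational_sqrt
  apply hirr
  refine ⟨|2 - N (1 + w₁ * w₂)|, ?_⟩
  rw [show ((3 : ℕ) : ℝ) = (((2 - N (1 + w₁ * w₂)) : ℚ) : ℝ) ^ 2 by rw [hq2]; norm_num]
  rw [Real.sqrt_sq_eq_abs]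
  push_cast
  rfl

/-- The main argument, for a multiplicative map `c : K → M` in the place of the class map of a
quotient of the field `K`. -/
theorem main {K : Type u} [Field K] {M : Type v} [GroupWithZero M] (c : K → M)
    (c_mul : ∀ x y, c (x * y) = c x * c y) (c_zero : ∀ x, c x = 0 ↔ x = 0)
    (f : WithZero (HQˣ ⧸ normOne) ≃ M) (hf0 : f 0 = 0) (hfm : ∀ x y, f (x * y) = f x * f y)
    (hfa : ∀ x y, f '' qadd normOne x y =
      {e | ∃ k l : K, c k = f x ∧ c l = f y ∧ c (k + l) = e}) : False := by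
  have c_one : c 1 = 1 := by
    have h := c_mul 1 1
    rw [mul_one] at h
    have h1 : c 1 ≠ 0 := fun h' => one_ne_zero ((c_zero 1).1 h')
    exact (mul_left_cancel₀ h1 (by rw [mul_one]; exact h)).symm
  -- a section of the class map
  choose rep hrep using cls_surj normOne
  let g : K → HQ := fun k => rep (f.symm (c k))
  have hg : ∀ k, f (cls normOne (g k)) = c k := by
    intro k
    show f (cls normOne (rep (f.symm (c k)))) = _
    rw [hrep, Equiv.apply_symm_apply]
  have hgN : ∀ k (x : HQ), f (cls normOne x) = c k →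
      Quaternion.normSq (g k) = Quaternion.normSq x := by
    intro k x h
    apply normSq_eq
    apply f.injective
    rw [hg, h]
  have hf1 : f 1 = 1 := by
    have h := hfm 1 1
    rw [mul_one] at h
    have h1 : f 1 ≠ 0 := by
      rw [← hf0]
      exact fun h' => one_ne_zero (f.injective h')
    exact (mul_left_cancel₀ h1 (by rw [mul_one]; exact h)).symm
  have hsum : ∀ k l : K, ∃ x y : HQ, Quaternion.normSq x = Quaternion.normSq (g k) ∧
      Quaternion.normSq y = Quaternion.normSq (g l) ∧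
      Quaternion.normSq (x + y) = Quaternion.normSq (g (k + l)) := by
    intro k l
    have h1 : c (k + l) ∈ {e | ∃ k' l' : K, c k' = f (cls normOne (g k)) ∧
        c l' = f (cls normOne (g l)) ∧ c (k' + l') = e} := by
      rw [hg, hg]
      exact ⟨k, l, rfl, rfl, rfl⟩
    rw [← hfa] at h1
    obtain ⟨z, ⟨x, y, hx, hy, hz⟩, hzl⟩ := h1
    refine ⟨x, y, normSq_eq hx, normSq_eq hy, ?_⟩
    rw [← hz] at hzl
    exact (hgN _ _ hzl).symm
  have hex : ∀ x : HQ, Quaternion.normSq x = 1 → ∃ t : K, Quaternion.normSq (g t) = 1 ∧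
      Quaternion.normSq (g (1 + t)) = Quaternion.normSq (1 + x) := by
    intro x hx
    have h1 : f (cls normOne (1 + x)) ∈ {e | ∃ k l : K, c k = f 1 ∧ c l = f 1 ∧ c (k + l) = e} := by
      rw [← hfa]
      exact ⟨_, ⟨1, x, cls_one _, cls_eq_one hx, rfl⟩, rfl⟩
    rw [hf1] at h1
    obtain ⟨k, l, hk, hl, hkl⟩ := h1
    have hk0 : k ≠ 0 := by
      rintro rfl
      rw [(c_zero 0).2 rfl] at hk
      exact zero_ne_one hk
    refine ⟨k⁻¹ * l, ?_, ?_⟩
    · have : c (k⁻¹ * l) = 1 := by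
        rw [c_mul, hl, mul_one]
        have h2 := c_mul k⁻¹ k
        rw [inv_mul_cancel₀ hk0, hk, mul_one, c_one] at h2
        exact h2.symm
      have h3 : f (cls normOne 1) = c (k⁻¹ * l) := by
        rw [cls_one, hf1, this]
      rw [hgN _ _ h3, map_one]
    · have h4 : f (cls normOne (1 + x)) = c (1 + k⁻¹ * l) := by
        have h5 : c (k * (1 + k⁻¹ * l)) = c (k + l) := by
          rw [mul_add, mul_one, mul_inv_cancel_left₀ hk0]
        rw [c_mul, hk, one_mul] at h5
        rw [h5, hkl]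
      rw [hgN _ _ h4]
  obtain ⟨t, ht, ht1⟩ := hex 1 (map_one _)
  obtain ⟨w₁, hw₁, hw₁'⟩ := hex (qq (-1 / 2) (1 / 2) (1 / 2) (1 / 2)) (by
    rw [normSq_qq]; norm_num)
  obtain ⟨w₂, hw₂, hw₂'⟩ := hex (qq 0 1 0 0) (by
    rw [normSq_qq]; norm_num)
  refine contradiction_of_norm (fun k => Quaternion.normSq (g k)) ?_ ?_ ?_ ?_ t w₁ w₂ ht ?_ hw₁ ?_
    hw₂ ?_
  · intro k l
    rw [← map_mul]
    apply hgN
    rw [cls_mul, hfm, hg, hg, ← c_mul]
  · intro k
    show Quaternion.normSq (g k) = 0 ↔ _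
    rw [Quaternion.normSq_eq_zero, ← cls_eq_zero normOne, ← f.injective.eq_iff, hg, hf0,
      c_zero]
  · intro k
    exact Quaternion.normSq_nonneg
  · intro k l
    obtain ⟨x, y, hx, hy, hxy⟩ := hsum k l
    show (Quaternion.normSq (g (k + l)) - Quaternion.normSq (g k) - Quaternion.normSq (g l)) ^ 2 ≤
      4 * Quaternion.normSq (g k) * Quaternion.normSq (g l)
    rw [← hx, ← hy, ← hxy]
    exact normSq_add x y
  · rw [ht1, one_eq_qq, qq_add, normSq_qq]
    norm_num
  · rw [hw₁', one_eq_qq, qq_add, normSq_qq]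
    norm_num
  · rw [hw₂', one_eq_qq, qq_add, normSq_qq]
    norm_num

/-- There is a quotient hyperfield of a skew field which is not (isomorphic to) a quotient of a
field. -/
theorem result : ∃ (F : Type) (_ : DivisionRing F) (Γ : Subgroup Fˣ) (hn : Γ.Normal)
    (hc : ∀ a b : Fˣ ⧸ Γ, a * b = b * a),
    ∀ (K : Type u) (_ : Field K) (Δ : Subgroup Kˣ),
      IsEmpty (HyperIso (quot F Γ hn hc) (fieldQuot K Δ)) := by
  refine ⟨HQ, inferInstance, normOne, inferInstance, comm_quot, fun K iK Δ => ⟨fun f => ?_⟩⟩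
  have h1 : ∀ x y : K, cls Δ (x * y) = cls Δ x * cls Δ y := cls_mul Δ
  have h2 : ∀ x : K, cls Δ x = 0 ↔ x = 0 := fun x => cls_eq_zero Δ
  have h3 : f.toEquiv 0 = 0 := f.map_zero
  have h4 : ∀ x y, f.toEquiv (x * y) = f.toEquiv x * f.toEquiv y := f.map_mul
  exact main (cls Δ) h1 h2 f.toEquiv h3 h4 f.map_hadd

end Pool.Agent.Results.MP_4a7e1d_al.RationalQuaternions
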